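import Mathlib
set_option autoImplicit false

namespace Pool.Agent.Results.MP_5b767b_an.NoInclusion

open Filter Topology

/-- A weighted multigraph (loops allowed); only the weights of incident pairs matter. -/
structure WGraph where
  V : Type
  E : Type
  ends : E → Sym2 V
  wt : V → E → ℂ

/-- The set `E_v` of edges at `v` (a loop counts once). -/
def inc (G : WGraph) (v : G.V) : Set G.E := {e | v ∈ G.ends e}

open Classical in
/-- The other endpoint `r_v(e)` of an edge `e` at `v`. -/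
noncomputable def other (G : WGraph) (v : G.V) (e : G.E) : G.V :=
  if h : v ∈ G.ends e then Sym2.Mem.other h else v

def Adj (G : WGraph) (v w : G.V) : Prop := ∃ e, G.ends e = s(v, w)

def UnifBounded (G : WGraph) : Prop :=
  ∃ (D : ℕ) (C : ℝ), ∀ v, (inc G v).Finite ∧ (inc G v).ncard ≤ D ∧ ∀ e ∈ inc G v, ‖G.wt v e‖ ≤ C

def Connected (G : WGraph) : Prop := Nonempty G.V ∧ ∀ v w, Relation.ReflTransGen (Adj G) v w

def Amenable (G : WGraph) : Prop :=
  ∃ F : ℕ → Finset G.V, Monotone F ∧ (∀ v, ∃ k, v ∈ F k) ∧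
    Tendsto (fun k => ({w | w ∉ F k ∧ ∃ v ∈ F k, Adj G v w}.ncard : ℝ) / (F k).card) atTop (𝓝 0)

def Covers (G H : WGraph) : Prop :=
  ∃ (φ : G.V → H.V) (ψ : G.E → H.E), φ.Surjective ∧ ψ.Surjective ∧
    (∀ e, H.ends (ψ e) = (G.ends e).map φ) ∧ (∀ v, Set.BijOn ψ (inc G v) (inc H (φ v))) ∧
    ∀ v, ∀ e ∈ inc G v, G.wt v e = H.wt (φ v) (ψ e)

noncomputable abbrev L2 (V : Type) := lp (fun _ : V => ℂ) 2

/-- Bounded operators on `H`. -/
abbrev Op (H : Type) [NormedAddCommGroup H] [NormedSpace ℂ H] := H →L[ℂ] H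

/-- `z` lies in the spectrum of the bounded operator `A`. -/
def InSpec {H : Type} [NormedAddCommGroup H] [NormedSpace ℂ H] (A : Op H) (z : ℂ) : Prop :=
  z ∈ spectrum ℂ A

/-- The value of the operator `A` on the vector `f`. -/
def app {H : Type} [NormedAddCommGroup H] [NormedSpace ℂ H] (A : Op H) (f : H) : H := A f

def IsLaplace (G : WGraph) (H : Op (L2 G.V)) : Prop :=
  ∀ f v, (app H f : L2 G.V) v = ∑ᶠ e ∈ inc G v, G.wt v e * f (other G v e)

lemma other_eq (G : WGraph) (v w : G.V) (e : G.E) (h : G.ends e = s(v, w)) : other G v e = w := by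
  have hv : v ∈ G.ends e := by rw [h]; exact Sym2.mem_mk_left _ _
  rw [other, dif_pos hv]
  exact Sym2.congr_right.mp ((Sym2.other_spec hv).trans h)

abbrev X := {l : List (Fin 3) // l.IsChain (· ≠ ·)}
def D (x : X) (i : Fin 3) : Prop := x.1.head? = some i
instance (x : X) (i : Fin 3) : Decidable (D x i) := inferInstanceAs (Decidable (_ = _))

def U (i : Fin 3) (x : X) : X :=
  if h : D x i then ⟨x.1.tail, x.2.tail⟩ else ⟨i :: x.1, List.isChain_cons.mpr
    ⟨fun y hy e => h (by rw [D, e]; exact hy), x.2⟩⟩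

lemma DU (i : Fin 3) (x : X) : D (U i x) i ↔ ¬ D x i := by
  unfold U
  split_ifs with h
  · obtain ⟨_ | ⟨a, l⟩, hl⟩ := x
    · simp [D] at h
    · have : a = i := by simpa [D] using h
      subst this
      simp only [h, not_true, iff_false]
      exact fun e => (List.isChain_cons.mp hl).1 a e rfl
  · simp only [h, not_false_iff, iff_true]; rfl

lemma UU (i : Fin 3) (x : X) : U i (U i x) = x := by
  by_cases h : D x i
  · have h2 : ¬ D (U i x) i := fun e => (DU i x).mp e h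
    apply Subtype.ext
    rw [U, dif_neg h2]
    simp only [U, dif_pos h]
    exact List.cons_head?_tail h
  · have h2 : D (U i x) i := (DU i x).mpr h
    apply Subtype.ext
    rw [U, dif_pos h2]
    simp only [U, dif_neg h]
    rfl

lemma Ulen (i : Fin 3) (x : X) : (U i x).1.length ≤ x.1.length + 1 := by
  unfold U; split_ifs <;> simp; omega

abbrev T := {p : X × Fin 3 // D p.1 p.2}
def edge (x : X) (i : Fin 3) : T := if h : D x i then ⟨(x, i), h⟩ else ⟨(U i x, i), (DU i x).mpr h⟩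
lemma edge_col (x : X) (i : Fin 3) : (edge x i).1.2 = i := by unfold edge; split_ifs <;> rfl

abbrev G1 : WGraph where
  V := X × ℕ
  E := T ⊕ X × ℕ
  ends := Sum.elim (fun p => s((p.1.1, 0), (U p.1.2 p.1.1, 0))) (fun q => s(q, (q.1, q.2 + 1)))
  wt := fun _ => Sum.elim (fun _ => 1) (fun _ => 0)

abbrev G2 : WGraph where
  V := ℕ
  E := Fin 3 ⊕ ℕ
  ends := Sum.elim (fun _ => s(0, 0)) (fun n => s(n, n + 1))
  wt := fun _ => Sum.elim (fun _ => 1) (fun _ => 0)

lemma edge_ends (x : X) (i : Fin 3) : G1.ends (.inl (edge x i)) = s((x, 0), (U i x, 0)) := by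
  unfold edge; split_ifs
  · rfl
  · show s((U i x, 0), (U i (U i x), 0)) = _
    rw [UU, Sym2.eq_swap]

lemma inc_l (x : X) (n : ℕ) (p : T) :
    Sum.inl p ∈ inc G1 (x, n) ↔ n = 0 ∧ p = edge x p.1.2 := by
  obtain ⟨⟨y, i⟩, h⟩ := p
  constructor
  · intro hh
    have : (x, n) ∈ s((y, 0), (U i y, 0)) := hh
    rcases Sym2.mem_iff.mp this with e | e <;> obtain ⟨rfl, rfl⟩ := Prod.mk.inj e
    · exact ⟨rfl, by rw [edge, dif_pos h]⟩
    · refine ⟨rfl, ?_⟩
      rw [edge, dif_neg (fun e => (DU i y).mp e h)]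
      exact Subtype.ext (Prod.ext (UU i y).symm rfl)
  · rintro ⟨rfl, e⟩
    show _ ∈ G1.ends _
    rw [e, edge_ends]; exact Sym2.mem_mk_left _ _

lemma inc_r (x : X) (n : ℕ) (q : X × ℕ) :
    Sum.inr q ∈ inc G1 (x, n) ↔ q.1 = x ∧ (n = q.2 ∨ n = q.2 + 1) := by
  show (x, n) ∈ s(q, (q.1, q.2 + 1)) ↔ _
  rw [Sym2.mem_iff, Prod.ext_iff, Prod.ext_iff]; tauto

lemma inc2_l (n : ℕ) (i : Fin 3) : Sum.inl i ∈ inc G2 n ↔ n = 0 := by
  show n ∈ s(0, 0) ↔ _
  simp

lemma inc2_r (n m : ℕ) : Sum.inr m ∈ inc G2 n ↔ n = m ∨ n = m + 1 := Sym2.mem_iff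

def psi : G1.E → G2.E := Sum.map (fun p => p.1.2) (fun q => q.2)

lemma bij (v : G1.V) : Set.BijOn psi (inc G1 v) (inc G2 v.2) := by
  obtain ⟨x, n⟩ := v
  refine ⟨?_, ?_, ?_⟩
  · rintro (p | q) h
    · exact (inc2_l _ _).mpr ((inc_l x n p).mp h).1
    · exact (inc2_r _ _).mpr ((inc_r x n q).mp h).2
  · rintro (p | q) h (p' | q') h' e
    · have e' : p.1.2 = p'.1.2 := Sum.inl.inj e
      rw [((inc_l x n p).mp h).2, ((inc_l x n p').mp h').2, e']
    · cases e
    · cases e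
    · rw [Prod.ext (((inc_r x n q).mp h).1.trans ((inc_r x n q').mp h').1.symm) (Sum.inr.inj e)]
  · rintro (i | m) h
    · exact ⟨.inl (edge x i), (inc_l _ _ _).mpr ⟨(inc2_l _ _).mp h, by rw [edge_col]⟩,
        congrArg Sum.inl (edge_col x i)⟩
    · exact ⟨.inr (x, m), (inc_r _ _ _).mpr ⟨rfl, (inc2_r _ _).mp h⟩, rfl⟩

def rt : X := ⟨[], List.isChain_nil⟩

lemma ub2 (n : ℕ) : (inc G2 n).Finite ∧ (inc G2 n).ncard ≤ 5 := by
  have : inc G2 n ⊆ Set.range (Sum.map id (fun b : Fin 2 => n - b) : Fin 3 ⊕ Fin 2 → Fin 3 ⊕ ℕ) := by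
    rintro (i | m) h
    · exact ⟨.inl i, rfl⟩
    · rcases (inc2_r _ _).mp h with rfl | rfl
      · exact ⟨.inr 0, rfl⟩
      · exact ⟨.inr 1, rfl⟩
  refine ⟨(Set.finite_range _).subset this, (Set.ncard_le_ncard this (Set.finite_range _)).trans ?_⟩
  rw [← Set.image_univ]
  refine (Set.ncard_image_le Set.finite_univ).trans ?_
  simp [Set.ncard_univ]

lemma conn : Connected G1 := by
  have sy : ∀ v w, Adj G1 v w → Adj G1 w v := fun v w ⟨e, h⟩ => ⟨e, h.trans Sym2.eq_swap⟩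
  have h1 : ∀ (l : List (Fin 3)) (h : l.IsChain (· ≠ ·)),
      Relation.ReflTransGen (Adj G1) (⟨l, h⟩, 0) (rt, 0) := by
    intro l
    induction l with
    | nil => exact fun _ => .refl
    | cons a l ih => exact fun h => .head ⟨.inl ⟨(⟨_, h⟩, a), rfl⟩, by
        show s(_, (U a _, 0)) = _
        rw [U, dif_pos (show D ⟨a :: l, h⟩ a from rfl)]; rfl⟩ (ih h.tail)
  have h2 : ∀ (x : X) (n : ℕ), Relation.ReflTransGen (Adj G1) (x, n) (rt, 0) := by
    intro x n
    induction n with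
    | zero => exact h1 x.1 x.2
    | succ n ih => exact .head (sy _ _ ⟨.inr (x, n), rfl⟩) ih
  exact ⟨⟨(rt, 0)⟩, fun v w => (h2 v.1 v.2).trans
    (Relation.ReflTransGen.mono (fun a b h => sy b a h) _ _ (h2 w.1 w.2).swap)⟩

lemma amen : Amenable G1 := by
  classical
  have fin : ∀ k, {x : X | x.1.length ≤ k}.Finite := fun k =>
    (List.finite_length_le (Fin 3) k).preimage Subtype.val_injective.injOn
  let F : ℕ → Finset (X × ℕ) := fun k => (fin k).toFinset ×ˢ Finset.range (k + 1)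
  have mF : ∀ k v, v ∈ F k ↔ v.1.1.length ≤ k ∧ v.2 ≤ k := fun k v => by
    simp [F]
  refine ⟨F, fun a b h v hv => ?_, fun v => ⟨v.1.1.length + v.2, (mF _ _).mpr (by omega)⟩, ?_⟩
  · rw [mF] at *; omega
  refine squeeze_zero (fun k => by positivity) (fun k => ?_)
    (by simpa using tendsto_one_div_add_atTop_nhds_zero_nat.const_mul (4 : ℝ))
  have hs : {w | w ∉ F k ∧ ∃ v ∈ F k, Adj G1 v w} ⊆ (((fin k).toFinset ×ˢ Finset.univ).image
      (fun p : X × Option (Fin 3) => p.2.elim (p.1, k + 1) (fun i => (U i p.1, 0))) :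
        Finset (X × ℕ)) := by
    rintro ⟨y, m⟩ ⟨h1, ⟨x, n⟩, h2, e, he⟩
    rw [mF] at h1 h2
    have hv : e ∈ inc G1 (x, n) := by show _ ∈ G1.ends e; rw [he]; exact Sym2.mem_mk_left _ _
    simp only [Finset.coe_image, Set.mem_image, Finset.mem_coe, Finset.mem_product,
      Finset.mem_univ, and_true, Set.Finite.mem_toFinset, Set.mem_ofPred_eq]
    rcases e with p | q
    · obtain ⟨rfl, h3⟩ := (inc_l x n p).mp hv
      rw [h3, edge_ends] at he
      exact ⟨(x, some p.1.2), h2.1, Sym2.congr_right.mp he⟩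
    · have he' : s(q, (q.1, q.2 + 1)) = s((x, n), (y, m)) := he
      refine ⟨(x, none), h2.1, ?_⟩
      rcases Sym2.eq_iff.mp he' with ⟨rfl, h⟩ | ⟨rfl, h⟩ <;> obtain ⟨rfl, rfl⟩ := Prod.mk.inj h
      · exact Prod.ext rfl (by dsimp only [Option.elim] at *; omega)
      · dsimp only at *; omega
  have h1 := (Set.ncard_le_ncard hs (Finset.finite_toSet _)).trans
    ((Set.ncard_coe_finset _).trans_le Finset.card_image_le)
  have h0 : 0 < (fin k).toFinset.card := Finset.card_pos.mpr ⟨rt, by simp [rt]⟩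
  have h2 : (F k).card = (fin k).toFinset.card * (k + 1) := by simp [F]
  simp only [Finset.card_product, Finset.card_univ, Fintype.card_option, Fintype.card_fin] at h1
  rw [h2, div_le_iff₀ (by positivity)]
  push_cast
  field_simp
  rw [mul_comm] at h1
  exact_mod_cast h1

noncomputable def w (x : X) (i : Fin 3) : ℝ := if D x i then 3 / 2 else 2 / 3

lemma w_pos (x : X) (i : Fin 3) : 0 < w x i := by unfold w; split_ifs <;> norm_num
lemma w_mul (x : X) (i : Fin 3) : w x i * w (U i x) i = 1 := by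
  unfold w; rw [if_congr (DU i x) rfl rfl]; by_cases h : D x i <;> simp [h]
lemma w_sum (x : X) : ∑ i, w x i ≤ 17 / 6 := by
  have u : ∀ i j, D x i → D x j → i = j := fun i j a b => Option.some.inj (a.symm.trans b)
  have a := u 0 1
  have b := u 0 2
  have c := u 1 2
  rw [Fin.sum_univ_three]
  unfold w
  split_ifs <;> simp_all <;> norm_num

noncomputable def A (f : X × ℕ → ℂ) (v : X × ℕ) : ℂ := if v.2 = 0 then ∑ i, f (U i v.1, 0) else 0

lemma A_bd (f : L2 (X × ℕ)) : Summable (fun v => ‖A f v‖ ^ 2) ∧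
    ∑' v, ‖A f v‖ ^ 2 ≤ (17 / 6 * ‖f‖) ^ 2 := by
  have hf : Summable fun v => ‖f v‖ ^ 2 := by
    simpa using (memℓp_gen_iff (by norm_num)).mp (lp.memℓp f)
  have hn : ‖f‖ ^ 2 = ∑' v, ‖f v‖ ^ 2 := by simpa using lp.norm_rpow_eq_tsum (by norm_num) f
  have ij : Function.Injective fun x : X => (x, 0) := Prod.mk_left_injective 0
  have hg : Summable fun x : X => ‖f (x, 0)‖ ^ 2 := hf.comp_injective ij
  have hg2 : ∑' x : X, ‖f (x, 0)‖ ^ 2 ≤ ‖f‖ ^ 2 :=
    hn ▸ Summable.tsum_le_tsum_of_inj _ ij (fun _ _ => by positivity) (fun _ => le_rfl) hg hf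
  have s1 : ∀ i, Summable fun x : X => w x i * ‖f (x, 0)‖ ^ 2 := fun i =>
    .of_nonneg_of_le (fun x => by have := w_pos x i; positivity)
      (fun x => by gcongr; unfold w; split_ifs <;> norm_num) (hg.mul_left 2)
  have s2 : ∀ i, HasSum (fun x : X => w (U i x) i * ‖f (U i x, 0)‖ ^ 2)
      (∑' x : X, w x i * ‖f (x, 0)‖ ^ 2) := fun i =>
    (Function.Involutive.toPerm (U i) (UU i)).hasSum_iff.mpr (s1 i).hasSum
  have s3 := (hasSum_sum (s := Finset.univ) fun i _ => s2 i).mul_left (17 / 6)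
  have pt : ∀ x : X, ‖A f (x, 0)‖ ^ 2 ≤ 17 / 6 * ∑ i, w (U i x) i * ‖f (U i x, 0)‖ ^ 2 := by
    intro x
    have h1 : ‖A f (x, 0)‖ ≤ ∑ i, ‖f (U i x, 0)‖ := by
      rw [A, if_pos rfl]; exact norm_sum_le _ _
    have h2 := Finset.sum_sq_le_sum_mul_sum_of_sq_le_mul Finset.univ
      (r := fun i => ‖f (U i x, 0)‖) (f := fun i => w x i)
      (g := fun i => w (U i x) i * ‖f (U i x, 0)‖ ^ 2) (fun i _ => (w_pos x i).le)
      (fun i _ => by have := w_pos (U i x) i; positivity)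
      (fun i _ => by rw [← mul_assoc, w_mul, one_mul])
    refine (pow_le_pow_left₀ (norm_nonneg _) h1 2).trans (h2.trans ?_)
    exact mul_le_mul_of_nonneg_right (w_sum x)
      (Finset.sum_nonneg fun i _ => by have := w_pos (U i x) i; positivity)
  have s4 : Summable fun x : X => ‖A f (x, 0)‖ ^ 2 :=
    .of_nonneg_of_le (fun _ => by positivity) pt s3.summable
  have z : ∀ v ∉ Set.range fun x : X => (x, 0), ‖A f v‖ ^ 2 = 0 := fun v hv => by
    rw [A, if_neg (fun e => hv ⟨v.1, Prod.ext rfl e.symm⟩)]; simp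
  refine ⟨(ij.summable_iff z).mp s4, ?_⟩
  rw [← ((ij.hasSum_iff z).mp s4.hasSum).tsum_eq.symm]
  refine (hasSum_le pt s4.hasSum s3).trans ?_
  rw [← Summable.tsum_finsetSum fun i _ => s1 i]
  have : ∑' x : X, ∑ i, w x i * ‖f (x, 0)‖ ^ 2 ≤ ∑' x : X, 17 / 6 * ‖f (x, 0)‖ ^ 2 :=
    Summable.tsum_le_tsum (fun x => by rw [← Finset.sum_mul]; gcongr; exact w_sum x)
      (summable_sum fun i _ => s1 i) (hg.mul_left _)
  rw [tsum_mul_left] at this
  nlinarith

noncomputable def AL : L2 (X × ℕ) →ₗ[ℂ] L2 (X × ℕ) where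
  toFun f := ⟨A f, memℓp_gen (by simpa using (A_bd f).1)⟩
  map_add' f g := by
    ext v
    show A _ v = A f v + A g v
    unfold A; split_ifs <;> simp [Finset.sum_add_distrib]
  map_smul' c f := by
    ext v
    show A _ v = c * A f v
    unfold A; split_ifs <;> simp [Finset.mul_sum]

lemma AL_le (f : L2 (X × ℕ)) : ‖AL f‖ ≤ 17 / 6 * ‖f‖ :=
  lp.norm_le_of_tsum_le (by norm_num) (by positivity) (by simpa [AL] using (A_bd f).2)

theorem result : ∃ G H : WGraph, UnifBounded G ∧ UnifBounded H ∧ Connected G ∧ Amenable G ∧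
    Covers G H ∧ ∃ (A : Op (L2 G.V)) (B : Op (L2 H.V)),
      IsLaplace G A ∧ IsLaplace H B ∧ ∃ z, InSpec B z ∧ ¬ InSpec A z := by
  classical
  let B : L2 ℕ →L[ℂ] L2 ℕ := (lp.singleContinuousLinearMap ℂ (fun _ : ℕ => ℂ) 2 0).comp
    ((3 : ℂ) • lp.evalCLM ℂ (fun _ : ℕ => ℂ) 2 0)
  have hB : ∀ f, B f = lp.single 2 0 (3 * f 0) := fun f => rfl
  refine ⟨G1, G2, ⟨5, 1, fun v => ⟨(ub2 v.2).1.of_injOn (bij v).mapsTo (bij v).injOn,
    (bij v).ncard_eq.trans_le (ub2 v.2).2, ?_⟩⟩, ⟨5, 1, fun v => ⟨(ub2 v).1, (ub2 v).2, ?_⟩⟩, conn,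
    amen, ⟨Prod.snd, psi, fun n => ⟨(rt, n), rfl⟩, ?_, ?_, bij, ?_⟩, AL.mkContinuous _ AL_le, B,
    ?_, ?_, 3, ?_, fun h => ?_⟩
  · rintro (e | e) _ <;> simp
  · rintro (e | e) _ <;> simp
  · rintro (i | m)
    · exact ⟨.inl (edge rt i), congrArg Sum.inl (edge_col rt i)⟩
    · exact ⟨.inr (rt, m), rfl⟩
  · rintro (e | e) <;> rfl
  · rintro v (e | e) _ <;> rfl
  · rintro f ⟨x, n⟩
    show A f (x, n) = _
    by_cases h : n = 0
    · subst h
      rw [A, if_pos rfl, finsum_mem_inter_support_eq' _ _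
        (Set.range fun i => (Sum.inl (edge x i) : G1.E)), finsum_mem_range, finsum_eq_sum_of_fintype]
      · exact Finset.sum_congr rfl fun i _ => by
          rw [other_eq G1 _ _ _ (edge_ends x i)]; exact (one_mul _).symm
      · intro i j e
        rw [← edge_col x i, Sum.inl.inj e, edge_col]
      · rintro (p | q) hp
        · rw [inc_l]
          refine ⟨fun h => ⟨_, congrArg _ h.2.symm⟩, ?_⟩
          rintro ⟨i, e⟩
          rw [← Sum.inl.inj e, edge_col]; exact ⟨rfl, rfl⟩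
        · exact absurd (zero_mul _) hp
    · rw [A, if_neg h]
      refine (finsum_mem_of_eqOn_zero ?_).symm
      rintro (p | q) hp
      · exact absurd ((inc_l _ _ _).mp hp).1 h
      · exact zero_mul _
  · intro f n
    show B f n = _
    rw [hB]
    by_cases h : n = 0
    · subst h
      rw [lp.single_apply_self, finsum_mem_inter_support_eq' _ _
        (Set.range (Sum.inl : Fin 3 → G2.E)), finsum_mem_range Sum.inl_injective,
        finsum_eq_sum_of_fintype, Finset.sum_congr rfl fun i _ => by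
          rw [other_eq G2 (0 : ℕ) (0 : ℕ) (.inl i) rfl]]
      · simp [G2]
      · rintro (p | q) hp
        · exact ⟨fun _ => ⟨p, rfl⟩, fun _ => (inc2_l _ _).mpr rfl⟩
        · exact absurd (zero_mul _) hp
    · rw [lp.single_apply_ne _ _ _ h]
      refine (finsum_mem_of_eqOn_zero ?_).symm
      rintro (p | q) hp
      · exact absurd ((inc2_l _ _).mp hp) h
      · exact zero_mul _
  · rintro ⟨u, hu⟩
    have h1 : (u : L2 ℕ →L[ℂ] L2 ℕ) (lp.single 2 0 1) = 0 := by
      rw [hu]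
      show (3 : ℂ) • lp.single 2 0 1 - B _ = (0 : L2 ℕ)
      rw [hB, ← lp.single_smul]; simp
    have h2 : (↑u⁻¹ : L2 ℕ →L[ℂ] L2 ℕ) ((u : L2 ℕ →L[ℂ] L2 ℕ) (lp.single 2 0 1)) 0 =
        (lp.single 2 0 1 : L2 ℕ) 0 :=
      congrArg (fun T : L2 ℕ →L[ℂ] L2 ℕ => T (lp.single 2 0 1) 0) u.inv_mul
    rw [h1, map_zero] at h2
    simp at h2
  · have : Nontrivial (L2 G1.V) := ⟨lp.single 2 (rt, 0) 1, 0, fun e => by
      have := congrArg (fun f : L2 G1.V => f (rt, 0)) e
      simp at this⟩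
    have h1 := (spectrum.norm_le_norm_of_mem h).trans (AL.mkContinuous_norm_le (by norm_num) AL_le)
    norm_num at h1

end Pool.Agent.Results.MP_5b767b_an.NoInclusion
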